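import Mathlib

/-!
Convolution lemma for the width-covariogram theorem: two continuous functions supported in a
bounded interval whose convolution vanishes identically cannot both be nonzero.
-/

open MeasureTheory Set

namespace Pool.Agent.WidthCov

/-- A continuous function supported in `[0,w]` has compact support. -/
lemma hasCompactSupport_of {w : ℝ} {U : ℝ → ℝ} (h0 : ∀ s, s ∉ Icc 0 w → U s = 0) :
    HasCompactSupport U :=
  HasCompactSupport.intro (isCompact_Icc (a := (0:ℝ)) (b := w)) h0

lemma integrable_pow_mul {w : ℝ} {U : ℝ → ℝ} (hU : Continuous U)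
    (h0 : ∀ s, s ∉ Icc 0 w → U s = 0) (k : ℕ) :
    Integrable (fun r => r ^ k * U r) := by
  apply Continuous.integrable_of_hasCompactSupport (by fun_prop)
  exact (hasCompactSupport_of h0).mul_left

/-- All moments zero implies zero. -/
lemma eq_zero_of_moments {w : ℝ} {U : ℝ → ℝ} (hU : Continuous U)
    (h0 : ∀ s, s ∉ Icc 0 w → U s = 0) (hm : ∀ k : ℕ, ∫ r, r ^ k * U r = 0) : ∀ s, U s = 0 := by
  -- orthogonal to all polynomials
  have hpoly : ∀ p : Polynomial ℝ, ∫ r, p.eval r * U r = 0 := by
    intro p
    have : ∀ r, p.eval r * U r = ∑ k ∈ Finset.range (p.natDegree + 1), p.coeff k * (r ^ k * U r) := by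
      intro r
      rw [Polynomial.eval_eq_sum_range, Finset.sum_mul]
      exact Finset.sum_congr rfl fun k _ => by ring
    simp_rw [this]
    rw [integral_finsetSum]
    · simp_rw [integral_const_mul, hm]; simp
    · intro k _
      exact (integrable_pow_mul hU h0 k).const_mul _
  have hint : Integrable U := by simpa using integrable_pow_mul hU h0 0
  have hsq : Integrable (fun r => U r * U r) := by
    apply Continuous.integrable_of_hasCompactSupport (by fun_prop)
    exact (hasCompactSupport_of h0).mul_left
  have hle : ∀ ε : ℝ, 0 < ε → ∫ r, U r * U r ≤ ε * ∫ r, |U r| := by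
    intro ε hε
    obtain ⟨p, hp⟩ := exists_polynomial_near_of_continuousOn 0 w U hU.continuousOn ε hε
    have hpi : Integrable (fun r => p.eval r * U r) := by
      apply Continuous.integrable_of_hasCompactSupport (by fun_prop)
      exact (hasCompactSupport_of h0).mul_left
    have h1 : ∫ r, U r * U r = ∫ r, (U r * U r - p.eval r * U r) := by
      rw [integral_sub hsq hpi, hpoly, sub_zero]
    rw [h1, ← integral_const_mul]
    apply integral_mono (hsq.sub hpi) (hint.abs.const_mul _)
    intro r
    show U r * U r - p.eval r * U r ≤ ε * |U r|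
    by_cases hr : r ∈ Icc 0 w
    · have h2 := hp r hr
      calc U r * U r - p.eval r * U r = (U r - p.eval r) * U r := by ring
        _ ≤ |(U r - p.eval r) * U r| := le_abs_self _
        _ = |p.eval r - U r| * |U r| := by rw [abs_mul, abs_sub_comm]
        _ ≤ ε * |U r| := mul_le_mul_of_nonneg_right h2.le (abs_nonneg _)
    · rw [h0 r hr]; simp
  have hz : ∫ r, U r * U r = 0 := by
    apply le_antisymm
    · by_contra hcon
      push Not at hcon
      have hA : 0 ≤ ∫ r, |U r| := integral_nonneg fun r => abs_nonneg _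
      have := hle ((∫ r, U r * U r) / (2 * (∫ r, |U r|) + 1)) (by positivity)
      have h3 : (∫ r, U r * U r) / (2 * (∫ r, |U r|) + 1) * ∫ r, |U r| < ∫ r, U r * U r := by
        rw [div_mul_eq_mul_div, div_lt_iff₀ (by positivity)]
        nlinarith
      linarith
    · exact integral_nonneg fun r => mul_self_nonneg _
  have h4 : (fun r => U r * U r) = 0 := by
    have := (integral_eq_zero_iff_of_nonneg (fun r => mul_self_nonneg (U r)) hsq).1 hz
    exact Continuous.ae_eq_iff_eq volume (by fun_prop) continuous_zero |>.1 this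
  intro s
  have := congrFun h4 s
  simpa using this

/-- Binomial identity for the moments of a vanishing convolution. -/
lemma moment_identity {w : ℝ} {U V : ℝ → ℝ} (hU : Continuous U) (hV : Continuous V)
    (hU0 : ∀ s, s ∉ Icc 0 w → U s = 0) (hV0 : ∀ s, s ∉ Icc 0 w → V s = 0)
    (hconv : ∀ t, ∫ r, U r * V (t - r) = 0) (n : ℕ) :
    ∑ k ∈ Finset.range (n + 1), (n.choose k : ℝ) *
      ((∫ r, r ^ k * U r) * ∫ r, r ^ (n - k) * V r) = 0 := by
  let L := ContinuousLinearMap.mul ℝ ℝ
  have hIU : ∀ k, Integrable (fun r => r ^ k * U r) := integrable_pow_mul hU hU0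
  have hIV : ∀ k, Integrable (fun r => r ^ k * V r) := integrable_pow_mul hV hV0
  have h1 : ∀ k j : ℕ, ∫ t, (∫ r, (r ^ k * U r) * ((t - r) ^ j * V (t - r))) =
      (∫ r, r ^ k * U r) * ∫ r, r ^ j * V r := by
    intro k j
    have := integral_convolution (μ := volume) (ν := volume) L (hIU k) (hIV j)
    simpa [convolution, L] using this
  have hcont : ∀ k j : ℕ, Integrable (fun t => ∫ r, (r ^ k * U r) * ((t - r) ^ j * V (t - r))) := by
    intro k j
    exact (hIU k).integrable_convolution L (hIV j)
  have hpt : ∀ t : ℝ, ∑ k ∈ Finset.range (n + 1), (n.choose k : ℝ) *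
      (∫ r, (r ^ k * U r) * ((t - r) ^ (n - k) * V (t - r))) = 0 := by
    intro t
    have h2 : ∀ k ∈ Finset.range (n + 1), (n.choose k : ℝ) *
        (∫ r, (r ^ k * U r) * ((t - r) ^ (n - k) * V (t - r))) =
        ∫ r, (n.choose k : ℝ) * ((r ^ k * U r) * ((t - r) ^ (n - k) * V (t - r))) := by
      intro k _
      rw [integral_const_mul]
    rw [Finset.sum_congr rfl h2, ← integral_finsetSum]
    · have h3 : ∀ r : ℝ, ∑ k ∈ Finset.range (n + 1),
          (n.choose k : ℝ) * ((r ^ k * U r) * ((t - r) ^ (n - k) * V (t - r))) =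
          t ^ n * (U r * V (t - r)) := by
        intro r
        have : t ^ n = ∑ k ∈ Finset.range (n + 1), r ^ k * (t - r) ^ (n - k) * (n.choose k : ℝ) := by
          rw [← add_pow]; congr 1; ring
        rw [this, Finset.sum_mul]
        exact Finset.sum_congr rfl fun k _ => by ring
      simp_rw [h3]
      rw [integral_const_mul, hconv, mul_zero]
    · intro k _
      apply Integrable.const_mul
      apply Continuous.integrable_of_hasCompactSupport (by fun_prop)
      exact ((hasCompactSupport_of hU0).mul_left).mul_right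
  have h5 : ∫ t, (∑ k ∈ Finset.range (n + 1), (n.choose k : ℝ) *
      (∫ r, (r ^ k * U r) * ((t - r) ^ (n - k) * V (t - r)))) = 0 := by
    simp_rw [hpt]; simp
  rw [integral_finsetSum] at h5
  · simp_rw [integral_const_mul, h1] at h5
    exact h5
  · intro k _
    exact (hcont k (n - k)).const_mul _

/-- No zero divisors for the convolution of compactly supported continuous functions. -/
theorem conv_zero {w : ℝ} {U V : ℝ → ℝ} (hU : Continuous U) (hV : Continuous V)
    (hU0 : ∀ s, s ∉ Icc 0 w → U s = 0) (hV0 : ∀ s, s ∉ Icc 0 w → V s = 0)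
    (hconv : ∀ t, ∫ r, U r * V (t - r) = 0) : (∀ s, U s = 0) ∨ (∀ s, V s = 0) := by
  classical
  by_contra hcon
  push Not at hcon
  obtain ⟨⟨s1, hs1⟩, ⟨s2, hs2⟩⟩ := hcon
  have hu : ∃ k : ℕ, ∫ r, r ^ k * U r ≠ 0 := by
    by_contra h; push Not at h
    exact hs1 (eq_zero_of_moments hU hU0 h s1)
  have hv : ∃ k : ℕ, ∫ r, r ^ k * V r ≠ 0 := by
    by_contra h; push Not at h
    exact hs2 (eq_zero_of_moments hV hV0 h s2)
  have hi := Nat.find_spec hu
  have hj := Nat.find_spec hv
  have hi' : ∀ k < Nat.find hu, ∫ r, r ^ k * U r = 0 := fun k hk => by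
    simpa using Nat.find_min hu hk
  have hj' : ∀ k < Nat.find hv, ∫ r, r ^ k * V r = 0 := fun k hk => by
    simpa using Nat.find_min hv hk
  set i := Nat.find hu
  set j := Nat.find hv
  have h := moment_identity hU hV hU0 hV0 hconv (i + j)
  rw [Finset.sum_eq_single i] at h
  · have hc : ((i + j).choose i : ℝ) ≠ 0 := by
      exact_mod_cast (Nat.choose_pos (Nat.le_add_right i j)).ne'
    have hij : i + j - i = j := by omega
    rw [hij] at h
    exact (mul_ne_zero hc (mul_ne_zero hi hj)) h
  · intro k hk hne
    rcases lt_or_gt_of_ne hne with hlt | hgt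
    · rw [hi' k hlt]; simp
    · rw [hj' (i + j - k) (by have := Finset.mem_range.1 hk; omega)]; simp
  · intro hnot
    exact absurd (Finset.mem_range.2 (by omega)) hnot

end Pool.Agent.WidthCov
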