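import Pool.Agent.WidthCov.Conv

/-!
Core one-dimensional lemma for the width-covariogram theorem.
-/

open MeasureTheory Set

namespace Pool.Agent.WidthCov

/-- Self-convolution for a function supported in `(0,w)`, at `t ≤ w`. -/
lemma conv_left {D : ℝ → ℝ} (hl : ∀ s ≤ 0, D s = 0) {t : ℝ} :
    ∫ r, D r * D (t - r) = ∫ s in (0:ℝ)..t, D s * D (t - s) := by
  rw [intervalIntegral.integral_eq_integral_of_support_subset]
  intro r hr
  rw [Function.mem_support] at hr
  refine ⟨?_, ?_⟩
  · by_contra h
    push Not at h
    exact hr (by rw [hl r h, zero_mul])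
  · by_contra h
    push Not at h
    exact hr (by rw [hl (t - r) (by linarith), mul_zero])

/-- Self-convolution for a function supported in `(0,w)`, at `t ≥ w`. -/
lemma conv_right {w : ℝ} {D : ℝ → ℝ} (hr : ∀ s, w ≤ s → D s = 0) {t : ℝ} :
    ∫ r, D r * D (t - r) = ∫ s in (0:ℝ)..(2 * w - t), D (w - s) * D (w - (2 * w - t - s)) := by
  have h1 : ∫ s in (0:ℝ)..(2 * w - t), D (w - s) * D (w - (2 * w - t - s)) =
      ∫ s in (0:ℝ)..(2 * w - t), (fun x => D x * D (t - x)) (w - s) := by
    apply intervalIntegral.integral_congr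
    intro s _
    show D (w - s) * D (w - (2 * w - t - s)) = D (w - s) * D (t - (w - s))
    congr 2; ring
  rw [h1, intervalIntegral.integral_comp_sub_left (fun x => D x * D (t - x)) w]
  rw [show w - (2 * w - t) = t - w by ring, sub_zero]
  rw [intervalIntegral.integral_eq_integral_of_support_subset]
  intro r hrr
  rw [Function.mem_support] at hrr
  refine ⟨?_, ?_⟩
  · by_contra h
    push Not at h
    exact hrr (by rw [hr (t - r) (by linarith), mul_zero])
  · by_contra h
    push Not at h
    exact hrr (by rw [hr r h.le, zero_mul])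

theorem core {w : ℝ} (hw : 0 < w) {D D' : ℝ → ℝ} (hD : Continuous D) (hD' : Continuous D')
    (hl : ∀ s ≤ 0, D s = 0) (hl' : ∀ s ≤ 0, D' s = 0)
    (hr : ∀ s, w ≤ s → D s = D w) (hr' : ∀ s, w ≤ s → D' s = D' w)
    (h1 : ∀ s ∈ Icc 0 w, D s ^ 2 = D' s ^ 2)
    (h2 : ∀ δ ∈ Icc 0 w,
      ∫ s in (0:ℝ)..δ, D s * D (δ - s) = ∫ s in (0:ℝ)..δ, D' s * D' (δ - s))
    (h3 : ∀ s ∈ Icc 0 w, (D w - D (w - s)) ^ 2 = (D' w - D' (w - s)) ^ 2)
    (h4 : ∀ δ ∈ Icc 0 w,
      ∫ s in (0:ℝ)..δ, (D w - D (w - s)) * (D w - D (w - (δ - s))) =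
      ∫ s in (0:ℝ)..δ, (D' w - D' (w - s)) * (D' w - D' (w - (δ - s)))) :
    (∀ s ∈ Icc 0 w, D' s = D s) ∨ (∀ s ∈ Icc 0 w, D' s = - D s) := by
  have hww : w ∈ Icc 0 w := ⟨hw.le, le_rfl⟩
  by_cases hDw : D w = 0
  · -- both vanish at `w`
    have hDw' : D' w = 0 := by
      have := h1 w hww
      rw [hDw] at this
      have h5 : D' w ^ 2 = 0 := by rw [← this]; ring
      simpa using h5
    have hr0 : ∀ s, w ≤ s → D s = 0 := fun s hs => by rw [hr s hs, hDw]
    have hr0' : ∀ s, w ≤ s → D' s = 0 := fun s hs => by rw [hr' s hs, hDw']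
    have hsup : ∀ s, s ∉ Icc 0 w → D s = 0 := by
      intro s hs
      rw [mem_Icc, not_and_or] at hs
      rcases hs with hs | hs
      · exact hl s (by linarith [not_le.1 hs])
      · exact hr0 s (not_le.1 hs).le
    have hsup' : ∀ s, s ∉ Icc 0 w → D' s = 0 := by
      intro s hs
      rw [mem_Icc, not_and_or] at hs
      rcases hs with hs | hs
      · exact hl' s (by linarith [not_le.1 hs])
      · exact hr0' s (not_le.1 hs).le
    have hsq : ∀ t, ∫ r, D r * D (t - r) = ∫ r, D' r * D' (t - r) := by
      intro t
      rcases le_or_gt t 0 with ht | ht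
      · have hz : ∀ (F : ℝ → ℝ), (∀ s ≤ 0, F s = 0) → ∀ r, F r * F (t - r) = 0 := by
          intro F hF r
          rcases le_or_gt r 0 with h | h
          · rw [hF r h, zero_mul]
          · rw [hF (t - r) (by linarith), mul_zero]
        simp_rw [hz D hl, hz D' hl']
      rcases le_or_gt t w with htw | htw
      · rw [conv_left hl, conv_left hl']
        exact h2 t ⟨ht.le, htw⟩
      rcases le_or_gt t (2 * w) with ht2 | ht2
      · rw [conv_right hr0, conv_right hr0']
        have h6 := h4 (2 * w - t) ⟨by linarith, by linarith⟩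
        rw [hDw, hDw'] at h6
        have h7 : ∀ F : ℝ → ℝ, ∫ s in (0:ℝ)..(2 * w - t), (0 - F (w - s)) *
            (0 - F (w - (2 * w - t - s))) = ∫ s in (0:ℝ)..(2 * w - t), F (w - s) *
            F (w - (2 * w - t - s)) := by
          intro F
          apply intervalIntegral.integral_congr
          intro s _
          show (0 - F (w - s)) * (0 - F (w - (2 * w - t - s))) = F (w - s) *
            F (w - (2 * w - t - s))
          ring
        rw [h7 D, h7 D'] at h6
        exact h6
      · have hz : ∀ (F : ℝ → ℝ), (∀ s, w ≤ s → F s = 0) → ∀ r, F r * F (t - r) = 0 := by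
          intro F hF r
          rcases le_or_gt w r with h | h
          · rw [hF r h, zero_mul]
          · rw [hF (t - r) (by linarith), mul_zero]
        simp_rw [hz D hr0, hz D' hr0']
    have hint : ∀ F G : ℝ → ℝ, Continuous F → Continuous G → (∀ s, s ∉ Icc 0 w → F s = 0) →
        ∀ t, Integrable (fun r => F r * G (t - r)) := by
      intro F G hF hG hF0 t
      apply Continuous.integrable_of_hasCompactSupport (by fun_prop)
      exact (hasCompactSupport_of hF0).mul_right
    have hconv : ∀ t, ∫ r, (D r - D' r) * (D (t - r) + D' (t - r)) = 0 := by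
      intro t
      have e1 : ∀ r, (D r - D' r) * (D (t - r) + D' (t - r)) =
          (D r * D (t - r) - D' r * D' (t - r)) + (D r * D' (t - r) - D' r * D (t - r)) := by
        intro r; ring
      simp_rw [e1]
      have i1 := hint D D hD hD hsup t
      have i2 := hint D' D' hD' hD' hsup' t
      have i3 := hint D D' hD hD' hsup t
      have i4 := hint D' D hD' hD hsup' t
      have i12 : Integrable (fun r => D r * D (t - r) - D' r * D' (t - r)) := i1.sub i2
      have i34 : Integrable (fun r => D r * D' (t - r) - D' r * D (t - r)) := i3.sub i4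
      rw [integral_add i12 i34, integral_sub i1 i2, integral_sub i3 i4, hsq t]
      have e2 : ∫ r, D r * D' (t - r) = ∫ r, D' r * D (t - r) := by
        rw [← integral_sub_left_eq_self (fun r => D r * D' (t - r)) volume t]
        apply integral_congr_ae
        filter_upwards with r
        show D (t - r) * D' (t - (t - r)) = D' r * D (t - r)
        rw [sub_sub_cancel, mul_comm]
      rw [e2]; ring
    have := conv_zero (w := w) (U := fun r => D r - D' r) (V := fun r => D r + D' r)
      (by fun_prop) (by fun_prop)
      (fun s hs => by show D s - D' s = 0; rw [hsup s hs, hsup' s hs, sub_zero])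
      (fun s hs => by show D s + D' s = 0; rw [hsup s hs, hsup' s hs, add_zero]) hconv
    rcases this with h | h
    · left
      intro s _
      have := h s
      linarith
    · right
      intro s _
      have := h s
      linarith
  · -- `D w ≠ 0`
    have hw2 : D w ^ 2 = D' w ^ 2 := h1 w hww
    have hprod : ∀ s ∈ Icc 0 w, D w * D s = D' w * D' s := by
      intro s hs
      have h5 := h1 s hs
      have h6 := h3 (w - s) ⟨by linarith [hs.2], by linarith [hs.1]⟩
      rw [sub_sub_cancel] at h6
      nlinarith
    have : (D w - D' w) * (D w + D' w) = 0 := by nlinarith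
    rcases mul_eq_zero.1 this with h | h
    · left
      intro s hs
      have h7 := hprod s hs
      rw [show D' w = D w by linarith] at h7
      exact (mul_left_cancel₀ hDw h7).symm
    · right
      intro s hs
      have h7 := hprod s hs
      rw [show D' w = - D w by linarith] at h7
      have h8 : D w * D s = D w * (- D' s) := by rw [h7]; ring
      linarith [mul_left_cancel₀ hDw h8]

end Pool.Agent.WidthCov
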