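import Pool.Agent.WidthCov.Moments

/-!
The one-dimensional determination theorem behind the width covariogram.
-/

open MeasureTheory Set

namespace Pool.Agent.WidthCov

/-- Change of variables. -/
lemma subst_int {w δ : ℝ} (F : ℝ → ℝ) :
    ∫ y in (w - δ)..w, F y = ∫ s in (0:ℝ)..δ, F (w - s) := by
  rw [intervalIntegral.integral_comp_sub_left F w, sub_zero]

/-- Symmetrisation identity for second moments. -/
lemma symm_identity {p q : ℝ → ℝ} (hp : Continuous p) (hq : Continuous q) (δ : ℝ) :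
    ∫ s in (0:ℝ)..δ, (p s + q (δ - s)) ^ 2 =
      (1 / 4) * ((∫ s in (0:ℝ)..δ, ((p s + q s) + (p (δ - s) + q (δ - s))) ^ 2) +
        ∫ s in (0:ℝ)..δ, ((p s - q s) - (p (δ - s) - q (δ - s))) ^ 2) := by
  have h1 : ∫ s in (0:ℝ)..δ, (p s + q (δ - s)) ^ 2 =
      ∫ s in (0:ℝ)..δ, (p (δ - s) + q s) ^ 2 := by
    have := intervalIntegral.integral_comp_sub_left (fun s => (p s + q (δ - s)) ^ 2) δ
      (a := 0) (b := δ)
    simp only [sub_sub_cancel, sub_zero, sub_self] at this
    exact this.symm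
  have h2 : ∫ s in (0:ℝ)..δ, (p s + q (δ - s)) ^ 2 = (1 / 2) *
      ((∫ s in (0:ℝ)..δ, (p s + q (δ - s)) ^ 2) + ∫ s in (0:ℝ)..δ, (p (δ - s) + q s) ^ 2) := by
    rw [← h1]; ring
  rw [h2, ← intervalIntegral.integral_add
      (Continuous.intervalIntegrable (by fun_prop) _ _)
      (Continuous.intervalIntegrable (by fun_prop) _ _),
    ← intervalIntegral.integral_add
      (Continuous.intervalIntegrable (by fun_prop) _ _)
      (Continuous.intervalIntegrable (by fun_prop) _ _),
    ← intervalIntegral.integral_const_mul, ← intervalIntegral.integral_const_mul]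
  apply intervalIntegral.integral_congr
  intro s _
  show 1 / 2 * ((p s + q (δ - s)) ^ 2 + (p (δ - s) + q s) ^ 2) =
    1 / 4 * (((p s + q s) + (p (δ - s) + q (δ - s))) ^ 2 +
      ((p s - q s) - (p (δ - s) - q (δ - s))) ^ 2)
  ring

/-- Vanishing primitives. -/
lemma eq_zero_of_primitive {w : ℝ} (hw : 0 < w) {G : ℝ → ℝ} (hG : Continuous G)
    (h : ∀ δ ∈ Ioc 0 w, ∫ s in (0:ℝ)..δ, G s = 0) : ∀ s ∈ Icc 0 w, G s = 0 := by
  have h1 : ∀ s ∈ Ioo 0 w, G s = 0 := by
    intro s hs
    have hd : deriv (fun u => ∫ x in (0:ℝ)..u, G x) s = G s :=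
      Continuous.deriv_integral G hG 0 s
    have he : (fun u => ∫ x in (0:ℝ)..u, G x) =ᶠ[nhds s] fun _ => (0:ℝ) := by
      filter_upwards [Ioo_mem_nhds hs.1 hs.2] with u hu
      exact h u ⟨hu.1, hu.2.le⟩
    rw [he.deriv_eq, deriv_const] at hd
    exact hd.symm
  have h2 : Icc 0 w ⊆ {s | G s = 0} := by
    rw [← closure_Ioo hw.ne]
    exact closure_minimal (fun s hs => h1 s hs) (isClosed_eq hG continuous_const)
  exact fun s hs => h2 hs

lemma concave_fiber {w h : ℝ} (hh : 0 ≤ h) {f e : ℝ → ℝ}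
    (hf : ConcaveOn ℝ (Icc 0 w) f) (he : ConcaveOn ℝ (Icc 0 w) e) :
    ConcaveOn ℝ (Icc h w) (fun y => f y + e (y - h)) := by
  refine ⟨convex_Icc _ _, ?_⟩
  intro x hx y hy a b ha hb hab
  have h1 := hf.2 (x := x) ⟨by linarith [hx.1], hx.2⟩ (y := y) ⟨by linarith [hy.1], hy.2⟩ ha hb hab
  have h2 := he.2 (x := x - h) ⟨by linarith [hx.1], by linarith [hx.2]⟩
    (y := y - h) ⟨by linarith [hy.1], by linarith [hy.2]⟩ ha hb hab
  simp only [smul_eq_mul] at h1 h2 ⊢
  have h3 : a * (x - h) + b * (y - h) = a * x + b * y - h := by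
    have : h = (a + b) * h := by rw [hab, one_mul]
    nlinarith
  rw [h3] at h2
  linarith

/-- The first set of consequences. -/
theorem family {w : ℝ} (hw : 0 < w) {f e f' e' : ℝ → ℝ}
    (hf : Continuous f) (he : Continuous e) (hf' : Continuous f') (he' : Continuous e')
    (cf : ConcaveOn ℝ (Icc 0 w) f) (ce : ConcaveOn ℝ (Icc 0 w) e)
    (cf' : ConcaveOn ℝ (Icc 0 w) f') (ce' : ConcaveOn ℝ (Icc 0 w) e')
    (hv : ∀ h ∈ Ico 0 w, ∀ t, volume (Icc h w ∩ {y | t ≤ f y + e (y - h)}) =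
      volume (Icc h w ∩ {y | t ≤ f' y + e' (y - h)})) :
    (∀ s ∈ Icc 0 w, f (w - s) + e s = f' (w - s) + e' s) ∧
    (∀ s ∈ Icc 0 w, ((f (w - s) - e s) - (f w - e 0)) ^ 2 =
      ((f' (w - s) - e' s) - (f' w - e' 0)) ^ 2) ∧
    (∀ δ ∈ Icc 0 w, ∫ s in (0:ℝ)..δ, ((f (w - s) - e s) - (f w - e 0)) *
        ((f (w - (δ - s)) - e (δ - s)) - (f w - e 0)) =
      ∫ s in (0:ℝ)..δ, ((f' (w - s) - e' s) - (f' w - e' 0)) *
        ((f' (w - (δ - s)) - e' (δ - s)) - (f' w - e' 0))) := by
  -- general moment identity after change of variables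
  have hmom : ∀ φ : ℝ → ℝ, Continuous φ → ∀ δ ∈ Ioc 0 w,
      ∫ s in (0:ℝ)..δ, φ (f (w - s) + e (δ - s)) =
      ∫ s in (0:ℝ)..δ, φ (f' (w - s) + e' (δ - s)) := by
    intro φ hφ δ hδ
    have h1 := integral_comp_eq (h := w - δ) (w := w) (by linarith [hδ.1])
      (A := fun y => f y + e (y - (w - δ))) (A' := fun y => f' y + e' (y - (w - δ)))
      (by fun_prop) (by fun_prop) (hv (w - δ) ⟨by linarith [hδ.2], by linarith [hδ.1]⟩) φ hφ
    rw [subst_int, subst_int] at h1
    have h2 : ∀ s : ℝ, w - s - (w - δ) = δ - s := by intro s; ring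
    simp only [h2] at h1
    exact h1
  -- (i)
  have hS : ∀ s ∈ Icc 0 w, f (w - s) + e s = f' (w - s) + e' s := by
    have h0 : ∀ s ∈ Icc 0 w, (f (w - s) + e s) - (f' (w - s) + e' s) = 0 := by
      apply eq_zero_of_primitive hw (by fun_prop)
      intro δ hδ
      have h1 := hmom (fun x => x) continuous_id δ hδ
      have h2 : ∀ (f e : ℝ → ℝ), Continuous f → Continuous e →
          ∫ s in (0:ℝ)..δ, (f (w - s) + e (δ - s)) = ∫ s in (0:ℝ)..δ, (f (w - s) + e s) := by
        intro f e hf he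
        rw [intervalIntegral.integral_add (Continuous.intervalIntegrable (by fun_prop) _ _)
          (Continuous.intervalIntegrable (by fun_prop) _ _),
          intervalIntegral.integral_add (Continuous.intervalIntegrable (by fun_prop) _ _)
          (Continuous.intervalIntegrable (by fun_prop) _ _)]
        congr 1
        simp
      rw [intervalIntegral.integral_sub (Continuous.intervalIntegrable (by fun_prop) _ _)
          (Continuous.intervalIntegrable (by fun_prop) _ _), ← h2 f e hf he, ← h2 f' e' hf' he', h1,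
          sub_self]
    intro s hs
    linarith [h0 s hs]
  have hS0 := hS 0 ⟨le_rfl, hw.le⟩
  rw [sub_zero] at hS0
  -- (ii)
  have hD2 : ∀ s ∈ Icc 0 w, ((f (w - s) - e s) - (f w - e 0)) ^ 2 =
      ((f' (w - s) - e' s) - (f' w - e' 0)) ^ 2 := by
    intro s hs
    rcases eq_or_lt_of_le hs.1 with h0 | h0
    · rw [← h0]; simp
    · have hmin := min_eq_min (h := w - s) (w := w) (by linarith)
        (A := fun y => f y + e (y - (w - s))) (A' := fun y => f' y + e' (y - (w - s)))
        (by fun_prop) (by fun_prop) (concave_fiber (by linarith [hs.2]) cf ce)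
        (concave_fiber (by linarith [hs.2]) cf' ce')
        (hv (w - s) ⟨by linarith [hs.2], by linarith⟩)
      simp only [sub_self, sub_sub_cancel] at hmin
      have hsum : (f (w - s) + e 0) + (f w + e s) = (f' (w - s) + e' 0) + (f' w + e' s) := by
        linarith [hS s hs]
      have h3 : |(f (w - s) + e 0) - (f w + e s)| = |(f' (w - s) + e' 0) - (f' w + e' s)| := by
        have a1 := min_add_max (f (w - s) + e 0) (f w + e s)
        have a2 := min_add_max (f' (w - s) + e' 0) (f' w + e' s)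
        have a3 := max_sub_min_eq_abs (f (w - s) + e 0) (f w + e s)
        have a4 := max_sub_min_eq_abs (f' (w - s) + e' 0) (f' w + e' s)
        rw [abs_sub_comm] at a3 a4
        linarith
      have h4 := congrArg (fun x => x ^ 2) h3
      simp only [sq_abs] at h4
      rw [show (f (w - s) - e s) - (f w - e 0) = (f (w - s) + e 0) - (f w + e s) by ring,
        show (f' (w - s) - e' s) - (f' w - e' 0) = (f' (w - s) + e' 0) - (f' w + e' s) by ring]
      exact h4
  refine ⟨hS, hD2, ?_⟩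
  -- (iii)
  intro δ hδ
  rcases eq_or_lt_of_le hδ.1 with h0 | h0
  · rw [← h0]; simp
  have hM := hmom (fun x => x ^ 2) (by fun_prop) δ ⟨h0, hδ.2⟩
  have k1 := symm_identity (p := fun s => f (w - s)) (q := e) (by fun_prop) he δ
  have k2 := symm_identity (p := fun s => f' (w - s)) (q := e') (by fun_prop) he' δ
  rw [k1, k2] at hM
  have hA : ∫ s in (0:ℝ)..δ, ((f (w - s) + e s) + (f (w - (δ - s)) + e (δ - s))) ^ 2 =
      ∫ s in (0:ℝ)..δ, ((f' (w - s) + e' s) + (f' (w - (δ - s)) + e' (δ - s))) ^ 2 := by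
    apply intervalIntegral.integral_congr
    intro s hs
    rw [uIcc_of_le hδ.1] at hs
    show ((f (w - s) + e s) + (f (w - (δ - s)) + e (δ - s))) ^ 2 =
      ((f' (w - s) + e' s) + (f' (w - (δ - s)) + e' (δ - s))) ^ 2
    rw [hS s ⟨hs.1, hs.2.trans hδ.2⟩, hS (δ - s) ⟨by linarith [hs.2], by linarith [hs.1, hδ.2]⟩]
  have hB : ∫ s in (0:ℝ)..δ, ((f (w - s) - e s) - (f (w - (δ - s)) - e (δ - s))) ^ 2 =
      ∫ s in (0:ℝ)..δ, ((f' (w - s) - e' s) - (f' (w - (δ - s)) - e' (δ - s))) ^ 2 := by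
    linarith
  have hC : ∫ s in (0:ℝ)..δ, (((f (w - s) - e s) - (f (w - (δ - s)) - e (δ - s))) ^ 2 -
      ((f' (w - s) - e' s) - (f' (w - (δ - s)) - e' (δ - s))) ^ 2) = 0 := by
    rw [intervalIntegral.integral_sub (Continuous.intervalIntegrable (by fun_prop) _ _)
          (Continuous.intervalIntegrable (by fun_prop) _ _), hB, sub_self]
  have hE : ∫ s in (0:ℝ)..δ, (((f (w - s) - e s) - (f (w - (δ - s)) - e (δ - s))) ^ 2 -
      ((f' (w - s) - e' s) - (f' (w - (δ - s)) - e' (δ - s))) ^ 2) =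
      ∫ s in (0:ℝ)..δ, (-2) * (((f (w - s) - e s) - (f w - e 0)) *
        ((f (w - (δ - s)) - e (δ - s)) - (f w - e 0)) -
        ((f' (w - s) - e' s) - (f' w - e' 0)) *
        ((f' (w - (δ - s)) - e' (δ - s)) - (f' w - e' 0))) := by
    apply intervalIntegral.integral_congr
    intro s hs
    rw [uIcc_of_le hδ.1] at hs
    have q1 := hD2 s ⟨hs.1, hs.2.trans hδ.2⟩
    have q2 := hD2 (δ - s) ⟨by linarith [hs.2], by linarith [hs.1, hδ.2]⟩
    show ((f (w - s) - e s) - (f (w - (δ - s)) - e (δ - s))) ^ 2 -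
      ((f' (w - s) - e' s) - (f' (w - (δ - s)) - e' (δ - s))) ^ 2 =
      (-2) * (((f (w - s) - e s) - (f w - e 0)) *
        ((f (w - (δ - s)) - e (δ - s)) - (f w - e 0)) -
        ((f' (w - s) - e' s) - (f' w - e' 0)) *
        ((f' (w - (δ - s)) - e' (δ - s)) - (f' w - e' 0)))
    linear_combination q1 + q2
  rw [hE, intervalIntegral.integral_const_mul, intervalIntegral.integral_sub
    (Continuous.intervalIntegrable (by fun_prop) _ _)
    (Continuous.intervalIntegrable (by fun_prop) _ _)] at hC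
  linarith

/-- The one-dimensional determination theorem. -/
theorem functional {w : ℝ} (hw : 0 < w) {f e f' e' : ℝ → ℝ}
    (hf : Continuous f) (he : Continuous e) (hf' : Continuous f') (he' : Continuous e')
    (cf : ConcaveOn ℝ (Icc 0 w) f) (ce : ConcaveOn ℝ (Icc 0 w) e)
    (cf' : ConcaveOn ℝ (Icc 0 w) f') (ce' : ConcaveOn ℝ (Icc 0 w) e')
    (kf : ∀ s ≤ 0, f s = f 0) (ke : ∀ s ≤ 0, e s = e 0)
    (kf' : ∀ s ≤ 0, f' s = f' 0) (ke' : ∀ s ≤ 0, e' s = e' 0)
    (rf : ∀ s, w ≤ s → f s = f w) (re : ∀ s, w ≤ s → e s = e w)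
    (rf' : ∀ s, w ≤ s → f' s = f' w) (re' : ∀ s, w ≤ s → e' s = e' w)
    (hv : ∀ h ∈ Ico 0 w, ∀ t, volume (Icc h w ∩ {y | t ≤ f y + e (y - h)}) =
      volume (Icc h w ∩ {y | t ≤ f' y + e' (y - h)}))
    (hv' : ∀ h ∈ Ico 0 w, ∀ t, volume (Icc h w ∩ {y | t ≤ e y + f (y - h)}) =
      volume (Icc h w ∩ {y | t ≤ e' y + f' (y - h)})) :
    (∃ κ, ∀ s ∈ Icc 0 w, f' s = f s + κ ∧ e' s = e s - κ) ∨
    (∃ κ, ∀ s ∈ Icc 0 w, f' s = e (w - s) + κ ∧ e' s = f (w - s) - κ) := by
  obtain ⟨a1, a2, a3⟩ := family hw hf he hf' he' cf ce cf' ce' hv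
  obtain ⟨-, b2, b3⟩ := family hw he hf he' hf' ce cf ce' cf' hv'
  have hww : w ∈ Icc 0 w := ⟨hw.le, le_rfl⟩
  set D : ℝ → ℝ := fun s => (f (w - s) - e s) - (f w - e 0) with hDdef
  set D' : ℝ → ℝ := fun s => (f' (w - s) - e' s) - (f' w - e' 0) with hDdef'
  have hDt : ∀ s, D w - D (w - s) = (e (w - s) - f s) - (e w - f 0) := by
    intro s
    simp only [hDdef, sub_self, sub_sub_cancel]
    ring
  have hDt' : ∀ s, D' w - D' (w - s) = (e' (w - s) - f' s) - (e' w - f' 0) := by
    intro s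
    simp only [hDdef', sub_self, sub_sub_cancel]
    ring
  have hcore := core hw (D := D) (D' := D') (by fun_prop) (by fun_prop)
    (by
      intro s hs
      simp only [hDdef]
      rw [rf (w - s) (by linarith), ke s hs]; ring)
    (by
      intro s hs
      simp only [hDdef']
      rw [rf' (w - s) (by linarith), ke' s hs]; ring)
    (by
      intro s hs
      simp only [hDdef, sub_self]
      rw [kf (w - s) (by linarith), re s hs])
    (by
      intro s hs
      simp only [hDdef', sub_self]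
      rw [kf' (w - s) (by linarith), re' s hs])
    a2 a3
    (by
      intro s hs
      rw [hDt, hDt']
      exact b2 s hs)
    (by
      intro δ hδ
      simp_rw [hDt, hDt']
      exact b3 δ hδ)
  rcases hcore with h | h
  · left
    refine ⟨((f' w - e' 0) - (f w - e 0)) / 2, fun s hs => ?_⟩
    have hs' : w - s ∈ Icc 0 w := ⟨by linarith [hs.2], by linarith [hs.1]⟩
    have h1 := h s hs
    have h2 := a1 s hs
    have h3 := h (w - s) hs'
    have h4 := a1 (w - s) hs'
    simp only [hDdef, hDdef', sub_sub_cancel] at h1 h2 h3 h4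
    constructor <;> linarith
  · right
    refine ⟨((f' w - e' 0) + (f w - e 0)) / 2, fun s hs => ?_⟩
    have hs' : w - s ∈ Icc 0 w := ⟨by linarith [hs.2], by linarith [hs.1]⟩
    have h1 := h s hs
    have h2 := a1 s hs
    have h3 := h (w - s) hs'
    have h4 := a1 (w - s) hs'
    simp only [hDdef, hDdef', sub_sub_cancel] at h1 h2 h3 h4
    constructor <;> linarith

end Pool.Agent.WidthCov
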