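import Pool.Agent.WidthCov.Core

/-!
From equality of the level-set measures to the one-dimensional data.
-/

open MeasureTheory Set

namespace Pool.Agent.WidthCov

/-- Equality of superlevel measures gives equality of all moments. -/
lemma integral_comp_eq {h w : ℝ} (hhw : h ≤ w) {A A' : ℝ → ℝ} (hA : Continuous A)
    (hA' : Continuous A')
    (hv : ∀ t, volume (Icc h w ∩ {y | t ≤ A y}) = volume (Icc h w ∩ {y | t ≤ A' y}))
    (φ : ℝ → ℝ) (hφ : Continuous φ) :
    ∫ y in h..w, φ (A y) = ∫ y in h..w, φ (A' y) := by
  rw [intervalIntegral.integral_of_le hhw, intervalIntegral.integral_of_le hhw,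
    ← integral_Icc_eq_integral_Ioc, ← integral_Icc_eq_integral_Ioc]
  have hmap : (volume.restrict (Icc h w)).map A = (volume.restrict (Icc h w)).map A' := by
    have : IsFiniteMeasure ((volume.restrict (Icc h w)).map A) := by infer_instance
    apply Measure.ext_of_Ici
    intro t
    rw [Measure.map_apply hA.measurable measurableSet_Ici,
      Measure.map_apply hA'.measurable measurableSet_Ici,
      Measure.restrict_apply (hA.measurable measurableSet_Ici),
      Measure.restrict_apply (hA'.measurable measurableSet_Ici), inter_comm,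
      inter_comm (A' ⁻¹' Ici t)]
    exact hv t
  rw [← integral_map (φ := A) (f := φ) hA.measurable.aemeasurable
      hφ.aestronglyMeasurable, hmap,
    integral_map (φ := A') (f := φ) hA'.measurable.aemeasurable hφ.aestronglyMeasurable]

/-- The superlevel set has full measure iff the level is at most the minimum of the endpoint
values, for a concave function. -/
lemma full_iff {h w : ℝ} (hhw : h < w) {A : ℝ → ℝ} (hA : Continuous A)
    (hc : ConcaveOn ℝ (Icc h w) A) (t : ℝ) :
    volume (Icc h w ∩ {y | t ≤ A y}) = volume (Icc h w) ↔ t ≤ min (A h) (A w) := by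
  constructor
  · intro hv
    have hms : MeasurableSet (Icc h w ∩ {y | t ≤ A y}) :=
      measurableSet_Icc.inter (measurableSet_le measurable_const hA.measurable)
    have hae : (fun y => max t (A y)) =ᵐ[volume.restrict (Icc h w)] A := by
      have h0 : volume (Icc h w \ (Icc h w ∩ {y | t ≤ A y})) = 0 := by
        rw [measure_sdiff inter_subset_left hms.nullMeasurableSet, hv, tsub_self]
        rw [hv]; simp
      rw [Filter.EventuallyEq, ae_restrict_iff' measurableSet_Icc]
      refine measure_mono_null ?_ h0
      intro y hy
      simp only [mem_compl_iff, mem_ofPred_eq, Classical.not_imp] at hy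
      refine ⟨hy.1, fun hcon => hy.2 ?_⟩
      exact max_eq_right hcon.2
    have heq := Measure.eqOn_Icc_of_ae_eq volume hhw.ne hae (by fun_prop) hA.continuousOn
    apply le_min
    · have := heq (left_mem_Icc.2 hhw.le)
      simp only at this
      rw [← this]; exact le_max_left _ _
    · have := heq (right_mem_Icc.2 hhw.le)
      simp only at this
      rw [← this]; exact le_max_left _ _
  · intro ht
    congr 1
    ext y
    constructor
    · exact fun hy => hy.1
    · intro hy
      refine ⟨hy, ?_⟩
      show t ≤ A y
      exact ht.trans (hc.min_le_of_mem_Icc (left_mem_Icc.2 hhw.le) (right_mem_Icc.2 hhw.le) hy)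

lemma min_eq_min {h w : ℝ} (hhw : h < w) {A A' : ℝ → ℝ} (hA : Continuous A)
    (hA' : Continuous A') (hc : ConcaveOn ℝ (Icc h w) A) (hc' : ConcaveOn ℝ (Icc h w) A')
    (hv : ∀ t, volume (Icc h w ∩ {y | t ≤ A y}) = volume (Icc h w ∩ {y | t ≤ A' y})) :
    min (A h) (A w) = min (A' h) (A' w) := by
  have key : ∀ t, t ≤ min (A h) (A w) ↔ t ≤ min (A' h) (A' w) := by
    intro t
    rw [← full_iff hhw hA hc, ← full_iff hhw hA' hc', hv t]
  exact le_antisymm ((key _).1 le_rfl) ((key _).2 le_rfl)

end Pool.Agent.WidthCov
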