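import Pool.Agent.WidthCov.Profile

/-!
The planar theorem in coordinates.
-/

open MeasureTheory Set Filter Topology
open scoped Pointwise

namespace Pool.Agent.WidthCov

/-- Height extent of a planar set. -/
noncomputable def hExt (S : Set (ℝ × ℝ)) : ℝ := sSup (Prod.snd '' S) - sInf (Prod.snd '' S)

lemma real_volume_eq {S : Set ℝ} (hk : IsCompact S) (hc : Convex ℝ S) :
    volume.real S = sSup S - sInf S := by
  rcases S.eq_empty_or_nonempty with h | h
  · rw [h]; simp
  · have h1 : S = Icc (sInf S) (sSup S) :=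
      eq_Icc_of_connected_compact ⟨h, hc.isPreconnected⟩ hk
    conv_lhs => rw [h1]
    rw [Real.volume_real_Icc_of_le]
    exact Real.sInf_le_sSup S hk.bddBelow hk.bddAbove

/-- Profile data of a planar body. -/
structure Data (K : Set (ℝ × ℝ)) (a w : ℝ) (f e : ℝ → ℝ) : Prop where
  wpos : 0 < w
  cf : Continuous f
  ce : Continuous e
  hf : ConcaveOn ℝ (Icc 0 w) f
  he : ConcaveOn ℝ (Icc 0 w) e
  lf : ∀ s ≤ 0, f s = f 0
  le : ∀ s ≤ 0, e s = e 0
  rf : ∀ s, w ≤ s → f s = f w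
  re : ∀ s, w ≤ s → e s = e w
  nonneg : ∀ s ∈ Icc 0 w, -e s ≤ f s
  mem_iff : ∀ p, p ∈ K ↔ p.2 - a ∈ Icc 0 w ∧ -e (p.2 - a) ≤ p.1 ∧ p.1 ≤ f (p.2 - a)

lemma exists_data (K : Set (ℝ × ℝ)) (hc : Convex ℝ K) (hk : IsCompact K)
    (hi : (interior K).Nonempty) : ∃ a w f e, Data K a w f e := by
  have hne : (Prod.snd '' K).Nonempty := (hi.mono interior_subset).image _
  have hkS : IsCompact (Prod.snd '' K) := hk.image continuous_snd
  have hcS : Convex ℝ (Prod.snd '' K) := hc.linear_image (LinearMap.snd ℝ ℝ ℝ)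
  have hS : Prod.snd '' K = Icc (sInf (Prod.snd '' K)) (sSup (Prod.snd '' K)) :=
    eq_Icc_of_connected_compact ⟨hne, hcS.isPreconnected⟩ hkS
  set a := sInf (Prod.snd '' K)
  set b := sSup (Prod.snd '' K)
  have hab : a < b := by
    obtain ⟨p, hp⟩ := hi
    rw [mem_interior_iff_mem_nhds, Metric.mem_nhds_iff] at hp
    obtain ⟨ε, hε, hball⟩ := hp
    have h1 : (p.1, p.2) ∈ K := hball (Metric.mem_ball_self hε)
    have h2 : (p.1, p.2 + ε / 2) ∈ K := by
      apply hball
      rw [Metric.mem_ball, Prod.dist_eq]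
      simp only [dist_self, Real.dist_eq, add_sub_cancel_left]
      rw [abs_of_pos (by linarith), max_eq_right (by linarith)]
      linarith
    have h3 : p.2 ∈ Icc a b := by rw [← hS]; exact ⟨_, h1, rfl⟩
    have h4 : p.2 + ε / 2 ∈ Icc a b := by rw [← hS]; exact ⟨_, h2, rfl⟩
    linarith [h3.1, h4.2]
  have hw : 0 < b - a := by linarith
  have hK1 : Prod.snd '' K = Icc a (a + (b - a)) := by rw [hS]; congr 1; ring
  obtain ⟨f, cf, hf, lf, rf, mf, uf⟩ := profile K hc hk a (b - a) hw hK1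
  -- reflected body
  let ρ : ℝ × ℝ → ℝ × ℝ := fun p => (-p.1, p.2)
  have hρ : Continuous ρ := by fun_prop
  have hρρ : ∀ p, ρ (ρ p) = p := fun p => by simp [ρ]
  have hKρ : ρ ⁻¹' K = ρ '' K := by
    ext p
    constructor
    · intro hp
      exact ⟨ρ p, hp, hρρ p⟩
    · rintro ⟨q, hq, rfl⟩
      show ρ (ρ q) ∈ K
      rw [hρρ]; exact hq
  have hkρ : IsCompact (ρ ⁻¹' K) := by rw [hKρ]; exact hk.image hρ
  have hcρ : Convex ℝ (ρ ⁻¹' K) := by
    intro x hx y hy α β hα hβ hαβ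
    have := hc hx hy hα hβ hαβ
    show ρ (α • x + β • y) ∈ K
    have h2 : ρ (α • x + β • y) = α • ρ x + β • ρ y := by
      ext
      · simp [ρ]; ring
      · simp [ρ]
    rw [h2]; exact this
  have hsρ : Prod.snd '' (ρ ⁻¹' K) = Icc a (a + (b - a)) := by
    rw [← hK1, hKρ, image_image]
  obtain ⟨e, ce, he, le, re, me, ue⟩ := profile (ρ ⁻¹' K) hcρ hkρ a (b - a) hw hsρ
  have hmf : ∀ s ∈ Icc 0 (b - a), (f s, a + s) ∈ K := mf
  have hme : ∀ s ∈ Icc 0 (b - a), (-e s, a + s) ∈ K := fun s hs => me s hs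
  have hle1 : ∀ p ∈ K, -e (p.2 - a) ≤ p.1 := by
    intro p hp
    have : ρ p ∈ ρ ⁻¹' K := by show ρ (ρ p) ∈ K; rw [hρρ]; exact hp
    have h1 := ue _ this
    simp only [ρ] at h1
    linarith
  refine ⟨a, b - a, f, e, hw, cf, ce, hf, he, lf, le, rf, re, ?_, ?_⟩
  · intro s hs
    have := hle1 _ (hmf s hs)
    simpa using this
  · intro p
    constructor
    · intro hp
      have h1 : p.2 ∈ Icc a (a + (b - a)) := by rw [← hK1]; exact ⟨p, hp, rfl⟩
      exact ⟨⟨by linarith [h1.1], by linarith [h1.2]⟩, hle1 p hp, uf p hp⟩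
    · rintro ⟨hs, h1, h2⟩
      have k1 := hmf _ hs
      have k2 := hme _ hs
      rw [show a + (p.2 - a) = p.2 by ring] at k1 k2
      -- convexity of the slice
      have hsl : Convex ℝ {u : ℝ | (u, p.2) ∈ K} := by
        intro x hx y hy α β hα hβ hαβ
        have := hc hx hy hα hβ hαβ
        show (α • x + β • y, p.2) ∈ K
        have h2 : (α • x + β • y, p.2) = α • (x, p.2) + β • (y, p.2) := by
          ext
          · simp
          · simp only [Prod.snd_add, Prod.smul_snd, smul_eq_mul]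
            rw [← add_mul, hαβ, one_mul]
        rw [h2]; exact this
      have := hsl.ordConnected.out (show -e (p.2 - a) ∈ {u : ℝ | (u, p.2) ∈ K} from k2)
        (show f (p.2 - a) ∈ {u : ℝ | (u, p.2) ∈ K} from k1) ⟨h1, h2⟩
      exact this

/-- The level set describing the covariogram. -/
def levelSet (f e : ℝ → ℝ) (w h u : ℝ) : Set ℝ :=
  Icc h w ∩ {s | -e s - f (s - h) ≤ u ∧ u ≤ f s + e (s - h)}

lemma hExt_inter {K : Set (ℝ × ℝ)} (hc : Convex ℝ K) (hk : IsCompact K) {a w : ℝ} {f e : ℝ → ℝ}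
    (d : Data K a w f e) {h : ℝ} (hh : 0 ≤ h) (u : ℝ) :
    hExt (K ∩ ((u, h) +ᵥ K)) = volume.real (levelSet f e w h u) := by
  have hkI : IsCompact (K ∩ ((u, h) +ᵥ K)) := hk.inter_right (hk.vadd (u, h)).isClosed
  have hcI : Convex ℝ (K ∩ ((u, h) +ᵥ K)) := hc.inter (hc.vadd (u, h))
  have hkS : IsCompact (Prod.snd '' (K ∩ ((u, h) +ᵥ K))) := hkI.image continuous_snd
  have hcS : Convex ℝ (Prod.snd '' (K ∩ ((u, h) +ᵥ K))) := hcI.linear_image (LinearMap.snd ℝ ℝ ℝ)
  rw [hExt, ← real_volume_eq hkS hcS]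
  have h1 : levelSet f e w h u = (fun s => a + s) ⁻¹' (Prod.snd '' (K ∩ ((u, h) +ᵥ K))) := by
    ext s
    constructor
    · rintro ⟨hs, hB, hA⟩
      have hs0 : s ∈ Icc 0 w := ⟨by linarith [hs.1], hs.2⟩
      have hsh : s - h ∈ Icc 0 w := ⟨by linarith [hs.1], by linarith [hs.2]⟩
      have n1 := d.nonneg s hs0
      have n2 := d.nonneg (s - h) hsh
      refine ⟨(max (-e s) (u - e (s - h)), a + s), ⟨?_, ?_⟩, rfl⟩
      · rw [d.mem_iff]
        simp only [add_sub_cancel_left]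
        exact ⟨hs0, le_max_left _ _, max_le n1 (by linarith)⟩
      · rw [mem_vadd_set_iff_neg_vadd_mem, d.mem_iff]
        simp only [vadd_eq_add, Prod.neg_mk, Prod.mk_add_mk]
        rw [show -h + (a + s) - a = s - h by ring]
        refine ⟨hsh, ?_, ?_⟩
        · linarith [le_max_right (-e s) (u - e (s - h))]
        · have : max (-e s) (u - e (s - h)) ≤ u + f (s - h) := max_le (by linarith) (by linarith)
          linarith
    · rintro ⟨p, ⟨hp1, hp2⟩, hps⟩
      simp only at hps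
      rw [mem_vadd_set_iff_neg_vadd_mem, d.mem_iff] at hp2
      rw [d.mem_iff] at hp1
      simp only [vadd_eq_add, Prod.neg_mk, Prod.fst_add, Prod.snd_add] at hp2
      rw [hps] at hp1 hp2
      rw [show -h + (a + s) - a = s - h by ring] at hp2
      rw [show a + s - a = s by ring] at hp1
      obtain ⟨g1, g2, g3⟩ := hp1
      obtain ⟨k1, k2, k3⟩ := hp2
      refine ⟨⟨by linarith [k1.1], g1.2⟩, by linarith, by linarith⟩
  rw [h1, measureReal_def, measureReal_def, measure_preimage_add]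

lemma closed_full {h w : ℝ} (hhw : h < w) {C : Set ℝ} (hC : IsClosed C)
    (hv : volume.real (Icc h w ∩ C) = w - h) : Icc h w ⊆ C := by
  have h1 : volume (Icc h w \ C) = 0 := by
    have h2 := measure_inter_add_sdiff (μ := volume) (Icc h w) hC.measurableSet
    rw [Real.volume_Icc] at h2
    have h3 : volume (Icc h w ∩ C) = ENNReal.ofReal (w - h) := by
      rw [← hv, measureReal_def, ENNReal.ofReal_toReal]
      exact ne_top_of_le_ne_top (by rw [Real.volume_Icc]; exact ENNReal.ofReal_ne_top)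
        (measure_mono inter_subset_left)
    rw [h3] at h2
    have h4 : ENNReal.ofReal (w - h) + volume (Icc h w \ C) = ENNReal.ofReal (w - h) + 0 := by
      rw [h2, add_zero]
    exact (ENNReal.add_right_inj ENNReal.ofReal_ne_top).1 h4
  have h5 : Ioo h w \ C = ∅ := by
    have ho : IsOpen (Ioo h w \ C) := isOpen_Ioo.sdiff hC
    rw [← ho.measure_eq_zero_iff volume]
    exact measure_mono_null (sdiff_subset_sdiff_left Ioo_subset_Icc_self) h1
  have h6 : Ioo h w ⊆ C := sdiff_eq_empty.1 h5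
  rw [← closure_Ioo hhw.ne]
  exact closure_minimal h6 hC

lemma plateau {K : Set (ℝ × ℝ)} {a w : ℝ} {f e : ℝ → ℝ} (d : Data K a w f e) {h : ℝ}
    (hh : 0 ≤ h) : ∃ c, ∀ s ∈ Icc h w, -e s - f (s - h) ≤ c ∧ c ≤ f s + e (s - h) := by
  have hw := d.wpos
  have hchord : ∀ s ∈ Icc 0 w, -e s ≤ f 0 + (f w - f 0) * (s / w) ∧
      f 0 + (f w - f 0) * (s / w) ≤ f s := by
    intro s hs
    have a1 : 0 ≤ s / w := div_nonneg hs.1 hw.le
    have a2 : 0 ≤ 1 - s / w := by
      rw [sub_nonneg, div_le_one hw]; exact hs.2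
    have hf := d.hf.2 (show (0:ℝ) ∈ Icc 0 w from ⟨le_rfl, hw.le⟩)
      (show w ∈ Icc 0 w from ⟨hw.le, le_rfl⟩) a2 a1 (by ring)
    have he := d.he.2 (show (0:ℝ) ∈ Icc 0 w from ⟨le_rfl, hw.le⟩)
      (show w ∈ Icc 0 w from ⟨hw.le, le_rfl⟩) a2 a1 (by ring)
    simp only [smul_eq_mul, mul_zero, zero_add] at hf he
    rw [div_mul_cancel₀ _ hw.ne'] at hf he
    have n0 := d.nonneg 0 ⟨le_rfl, hw.le⟩
    have n1 := d.nonneg w ⟨hw.le, le_rfl⟩
    constructor
    · have m0 := mul_le_mul_of_nonneg_left n0 a2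
      have m1 := mul_le_mul_of_nonneg_left n1 a1
      nlinarith
    · nlinarith
  refine ⟨(f w - f 0) * (h / w), fun s hs => ?_⟩
  have c1 := hchord s ⟨by linarith [hs.1], hs.2⟩
  have c2 := hchord (s - h) ⟨by linarith [hs.1], by linarith [hs.2]⟩
  have e1 : (f w - f 0) * ((s - h) / w) = (f w - f 0) * (s / w) - (f w - f 0) * (h / w) := by
    ring
  rw [e1] at c2
  constructor <;> linarith [c1.1, c1.2, c2.1, c2.2]

lemma levels {K H : Set (ℝ × ℝ)} {a w a' : ℝ} {f e f' e' : ℝ → ℝ} (d : Data K a w f e)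
    (d' : Data H a' w f' e') {h : ℝ} (hh : h ∈ Ico 0 w)
    (hv : ∀ u, volume.real (levelSet f e w h u) = volume.real (levelSet f' e' w h u)) :
    (∀ t, volume (Icc h w ∩ {y | t ≤ f y + e (y - h)}) =
      volume (Icc h w ∩ {y | t ≤ f' y + e' (y - h)})) ∧
    (∀ t, volume (Icc h w ∩ {y | t ≤ e y + f (y - h)}) =
      volume (Icc h w ∩ {y | t ≤ e' y + f' (y - h)})) := by
  obtain ⟨c, hcK⟩ := plateau d hh.1
  have cf := d.cf
  have ce := d.ce
  have cf' := d'.cf
  have ce' := d'.ce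
  have hcH : ∀ s ∈ Icc h w, -e' s - f' (s - h) ≤ c ∧ c ≤ f' s + e' (s - h) := by
    have h1 : volume.real (levelSet f' e' w h c) = w - h := by
      rw [← hv c]
      have : levelSet f e w h c = Icc h w := by
        apply inter_eq_left.2
        exact fun s hs => hcK s hs
      rw [this, Real.volume_real_Icc_of_le hh.2.le]
    have hclosed : IsClosed {s | -e' s - f' (s - h) ≤ c ∧ c ≤ f' s + e' (s - h)} := by
      have i1 : IsClosed {s | -e' s - f' (s - h) ≤ c} :=
        isClosed_le (by fun_prop) continuous_const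
      have i2 : IsClosed {s | c ≤ f' s + e' (s - h)} :=
        isClosed_le continuous_const (by fun_prop)
      exact i1.inter i2
    exact fun s hs => closed_full hh.2 hclosed h1 hs
  have fin : ∀ S : Set ℝ, volume (Icc h w ∩ S) ≠ ⊤ := fun S =>
    ne_top_of_le_ne_top (by rw [Real.volume_Icc]; exact ENNReal.ofReal_ne_top)
      (measure_mono inter_subset_left)
  have toReal : ∀ S S' : Set ℝ, volume.real (Icc h w ∩ S) = volume.real (Icc h w ∩ S') →
      volume (Icc h w ∩ S) = volume (Icc h w ∩ S') := fun S S' hS => by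
    rw [measureReal_def, measureReal_def] at hS
    exact (ENNReal.toReal_eq_toReal_iff' (fin S) (fin S')).1 hS
  constructor
  · intro t
    apply toReal
    have key : ∀ (f e : ℝ → ℝ), (∀ s ∈ Icc h w, -e s - f (s - h) ≤ c ∧ c ≤ f s + e (s - h)) →
        Icc h w ∩ {y | t ≤ f y + e (y - h)} = levelSet f e w h (max t c) := by
      intro f e hpl
      ext s
      constructor
      · rintro ⟨hs, ht⟩
        exact ⟨hs, (hpl s hs).1.trans (le_max_right _ _), max_le ht (hpl s hs).2⟩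
      · rintro ⟨hs, -, ht⟩
        exact ⟨hs, (le_max_left _ _).trans ht⟩
    rw [key f e hcK, key f' e' hcH]
    exact hv _
  · intro t
    apply toReal
    have key : ∀ (f e : ℝ → ℝ), (∀ s ∈ Icc h w, -e s - f (s - h) ≤ c ∧ c ≤ f s + e (s - h)) →
        Icc h w ∩ {y | t ≤ e y + f (y - h)} = levelSet f e w h (min (-t) c) := by
      intro f e hpl
      ext s
      constructor
      · rintro ⟨hs, ht⟩
        have ht' : t ≤ e s + f (s - h) := ht
        exact ⟨hs, le_min (by linarith) (hpl s hs).1, (min_le_right _ _).trans (hpl s hs).2⟩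
      · rintro ⟨hs, ht, -⟩
        refine ⟨hs, ?_⟩
        show t ≤ e s + f (s - h)
        linarith [min_le_left (-t) c]
    rw [key f e hcK, key f' e' hcH]
    exact hv _

/-- The planar theorem in coordinates. -/
theorem planar {K H : Set (ℝ × ℝ)} (hcK : Convex ℝ K) (hkK : IsCompact K)
    (hiK : (interior K).Nonempty) (hcH : Convex ℝ H) (hkH : IsCompact H)
    (hiH : (interior H).Nonempty)
    (hg : ∀ x : ℝ × ℝ, hExt (K ∩ (x +ᵥ K)) = hExt (H ∩ (x +ᵥ H))) :
    ∃ t : ℝ × ℝ, H = t +ᵥ K ∨ H = t +ᵥ (-K) := by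
  obtain ⟨a, w, f, e, d⟩ := exists_data K hcK hkK hiK
  obtain ⟨a', w', f', e', d'⟩ := exists_data H hcH hkH hiH
  -- equal widths
  have hw0 : ∀ {K : Set (ℝ × ℝ)} {a w : ℝ} {f e : ℝ → ℝ}, Convex ℝ K → IsCompact K →
      Data K a w f e → hExt (K ∩ (((0:ℝ), (0:ℝ)) +ᵥ K)) = w := by
    intro K a w f e hc hk d
    rw [hExt_inter hc hk d le_rfl 0]
    have : levelSet f e w 0 0 = Icc 0 w := by
      apply inter_eq_left.2
      intro s hs
      have := d.nonneg s hs
      show -e s - f (s - 0) ≤ 0 ∧ 0 ≤ f s + e (s - 0)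
      rw [sub_zero]
      constructor <;> linarith
    rw [this, Real.volume_real_Icc_of_le d.wpos.le, sub_zero]
  have hww : w' = w := by
    rw [← hw0 hcK hkK d, ← hw0 hcH hkH d', hg]
  subst hww
  have hlev : ∀ h ∈ Ico 0 w', _ := fun h hh => levels d d' hh (fun u => by
    rw [← hExt_inter hcK hkK d hh.1 u, ← hExt_inter hcH hkH d' hh.1 u, hg])
  have hfun := functional d.wpos d.cf d.ce d'.cf d'.ce d.hf d.he d'.hf d'.he d.lf d.le d'.lf d'.le
    d.rf d.re d'.rf d'.re (fun h hh => (hlev h hh).1) (fun h hh => (hlev h hh).2)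
  rcases hfun with ⟨κ, hκ⟩ | ⟨κ, hκ⟩
  · refine ⟨(κ, a' - a), Or.inl ?_⟩
    ext p
    rw [mem_vadd_set_iff_neg_vadd_mem, d.mem_iff, d'.mem_iff]
    simp only [vadd_eq_add, Prod.neg_mk, Prod.fst_add, Prod.snd_add]
    rw [show -(a' - a) + p.2 - a = p.2 - a' by ring]
    constructor
    · rintro ⟨h1, h2, h3⟩
      obtain ⟨k1, k2⟩ := hκ _ h1
      exact ⟨h1, by linarith, by linarith⟩
    · rintro ⟨h1, h2, h3⟩
      obtain ⟨k1, k2⟩ := hκ _ h1
      exact ⟨h1, by linarith, by linarith⟩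
  · refine ⟨(κ, a + w' + a'), Or.inr ?_⟩
    ext p
    rw [mem_vadd_set_iff_neg_vadd_mem, Set.mem_neg, d.mem_iff, d'.mem_iff]
    simp only [vadd_eq_add, Prod.neg_mk, neg_add_rev, neg_neg, Prod.fst_add, Prod.snd_add,
      Prod.fst_neg, Prod.snd_neg]
    rw [show -p.2 + (a + w' + a') - a = w' - (p.2 - a') by ring]
    constructor
    · rintro ⟨h1, h2, h3⟩
      obtain ⟨k1, k2⟩ := hκ _ h1
      exact ⟨⟨by linarith [h1.2], by linarith [h1.1]⟩, by linarith, by linarith⟩
    · rintro ⟨h1, h2, h3⟩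
      have h4 : p.2 - a' ∈ Icc 0 w' := ⟨by linarith [h1.2], by linarith [h1.1]⟩
      obtain ⟨k1, k2⟩ := hκ _ h4
      exact ⟨h4, by linarith, by linarith⟩

end Pool.Agent.WidthCov
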