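import Pool.Agent.WidthCov.Functional

/-!
Profiles of planar convex bodies, and the level sets of the width covariogram.
-/

open MeasureTheory Set Filter Topology

namespace Pool.Agent.WidthCov

/-- The upper profile of a planar compact convex set with given heights. -/
theorem profile (K : Set (ℝ × ℝ)) (hc : Convex ℝ K) (hk : IsCompact K) (a w : ℝ) (hw : 0 < w)
    (hK : Prod.snd '' K = Icc a (a + w)) :
    ∃ f : ℝ → ℝ, Continuous f ∧ ConcaveOn ℝ (Icc 0 w) f ∧ (∀ s ≤ 0, f s = f 0) ∧
      (∀ s, w ≤ s → f s = f w) ∧ (∀ s ∈ Icc 0 w, (f s, a + s) ∈ K) ∧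
      (∀ p ∈ K, p.1 ≤ f (p.2 - a)) := by
  classical
  let slice : ℝ → Set ℝ := fun s => {u | (u, a + s) ∈ K}
  let F : ℝ → ℝ := fun s => sSup (slice s)
  have hne : ∀ s ∈ Icc 0 w, (slice s).Nonempty := by
    intro s hs
    have : a + s ∈ Prod.snd '' K := by rw [hK]; exact ⟨by linarith [hs.1], by linarith [hs.2]⟩
    obtain ⟨p, hp, hps⟩ := this
    exact ⟨p.1, by show (p.1, a + s) ∈ K; rw [← hps]; exact hp⟩
  have hcomp : ∀ s, IsCompact (slice s) := by
    intro s
    have h1 : slice s = Prod.fst '' (K ∩ {p | p.2 = a + s}) := by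
      ext u
      constructor
      · intro hu
        exact ⟨(u, a + s), ⟨hu, rfl⟩, rfl⟩
      · rintro ⟨p, ⟨hp, hps⟩, rfl⟩
        show (p.1, a + s) ∈ K
        have : p.2 = a + s := hps
        rw [← this]; exact hp
    rw [h1]
    exact (hk.inter_right (isClosed_eq continuous_snd continuous_const)).image continuous_fst
  have hmem : ∀ s ∈ Icc 0 w, (F s, a + s) ∈ K := fun s hs => (hcomp s).sSup_mem (hne s hs)
  have hle : ∀ s u, (u, a + s) ∈ K → u ≤ F s := fun s u hu => le_csSup (hcomp s).bddAbove hu
  have hconc : ConcaveOn ℝ (Icc 0 w) F := by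
    refine ⟨convex_Icc _ _, ?_⟩
    intro x hx y hy α β hα hβ hαβ
    apply hle
    have := hc (hmem x hx) (hmem y hy) hα hβ hαβ
    have h2 : α • (F x, a + x) + β • (F y, a + y) = (α • F x + β • F y, a + (α • x + β • y)) := by
      ext
      · simp
      · simp only [smul_eq_mul, Prod.snd_add, Prod.smul_snd]
        have : a = (α + β) * a := by rw [hαβ, one_mul]
        linear_combination (norm := ring_nf) (-1 : ℝ) * this
    rw [h2] at this
    exact this
  have hcont : ContinuousOn F (Icc 0 w) := by
    intro s0 hs0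
    rw [ContinuousWithinAt, tendsto_order]
    constructor
    · intro c hcF
      -- lower bound
      have hlow : ∀ s ∈ Icc 0 w, F s0 - (|F s0 - F w| + |F s0 - F 0|) *
          (|s - s0| / (w - s0) + |s - s0| / s0) ≤ F s := by
        intro s hs
        have p1 : 0 ≤ |s - s0| / (w - s0) := div_nonneg (abs_nonneg _) (by linarith [hs0.2])
        have p2 : 0 ≤ |s - s0| / s0 := div_nonneg (abs_nonneg _) hs0.1
        rcases lt_trichotomy s s0 with hlt | heq | hgt
        · have hs0pos : 0 < s0 := lt_of_le_of_lt hs.1 hlt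
          have e1 : |s - s0| = s0 - s := by rw [abs_of_neg (by linarith)]; ring
          have h3 := hconc.2 hs0 (show (0:ℝ) ∈ Icc 0 w from ⟨le_rfl, hw.le⟩)
            (show 0 ≤ s / s0 from div_nonneg hs.1 hs0.1)
            (show 0 ≤ (s0 - s) / s0 from div_nonneg (by linarith) hs0.1)
            (by field_simp; ring)
          simp only [smul_eq_mul, mul_zero, add_zero] at h3
          rw [div_mul_cancel₀ _ hs0pos.ne'] at h3
          have h4 : s / s0 = 1 - (s0 - s) / s0 := by field_simp; ring
          rw [h4] at h3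
          rw [← e1] at h3
          have h5 : |s - s0| / s0 * (F s0 - F 0) ≤ |s - s0| / s0 * |F s0 - F 0| :=
            mul_le_mul_of_nonneg_left (le_abs_self _) p2
          have h6 : 0 ≤ |s - s0| / s0 * |F s0 - F w| := mul_nonneg p2 (abs_nonneg _)
          have h7 : 0 ≤ |s - s0| / (w - s0) * (|F s0 - F w| + |F s0 - F 0|) :=
            mul_nonneg p1 (by positivity)
          nlinarith
        · rw [heq]; simp
        · have hs0w : 0 < w - s0 := by linarith [hs.2]
          have e1 : |s - s0| = s - s0 := abs_of_pos (by linarith)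
          have h3 := hconc.2 hs0 (show w ∈ Icc 0 w from ⟨hw.le, le_rfl⟩)
            (show 0 ≤ (w - s) / (w - s0) from div_nonneg (by linarith [hs.2]) hs0w.le)
            (show 0 ≤ (s - s0) / (w - s0) from div_nonneg (by linarith) hs0w.le)
            (by field_simp; ring)
          simp only [smul_eq_mul] at h3
          have h8 : (w - s) / (w - s0) * s0 + (s - s0) / (w - s0) * w = s := by
            field_simp; ring
          rw [h8] at h3
          have h4 : (w - s) / (w - s0) = 1 - (s - s0) / (w - s0) := by field_simp; ring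
          rw [h4] at h3
          rw [← e1] at h3
          have h5 : |s - s0| / (w - s0) * (F s0 - F w) ≤ |s - s0| / (w - s0) * |F s0 - F w| :=
            mul_le_mul_of_nonneg_left (le_abs_self _) p1
          have h6 : 0 ≤ |s - s0| / (w - s0) * |F s0 - F 0| := mul_nonneg p1 (abs_nonneg _)
          have h7 : 0 ≤ |s - s0| / s0 * (|F s0 - F w| + |F s0 - F 0|) :=
            mul_nonneg p2 (by positivity)
          nlinarith
      have hφ : Continuous (fun s => F s0 - (|F s0 - F w| + |F s0 - F 0|) *
          (|s - s0| / (w - s0) + |s - s0| / s0)) := by fun_prop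
      have hev : ∀ᶠ s in 𝓝 s0, c < F s0 - (|F s0 - F w| + |F s0 - F 0|) *
          (|s - s0| / (w - s0) + |s - s0| / s0) := by
        apply Tendsto.eventually_const_lt _ hφ.continuousAt
        simpa using hcF
      filter_upwards [mem_nhdsWithin_of_mem_nhds hev, self_mem_nhdsWithin] with s h1 h2
      exact lt_of_lt_of_le h1 (hlow s h2)
    · intro c hcF
      have hP : IsClosed ((fun p : ℝ × ℝ => p.2 - a) '' (K ∩ {p | c ≤ p.1})) :=
        ((hk.inter_right (isClosed_le continuous_const continuous_fst)).image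
          (by fun_prop)).isClosed
      have hs0P : s0 ∉ (fun p : ℝ × ℝ => p.2 - a) '' (K ∩ {p | c ≤ p.1}) := by
        rintro ⟨p, ⟨hp, hpc⟩, hps⟩
        have h1 : p.2 = a + s0 := by simp only at hps; linarith
        have h2 : p.1 ≤ F s0 := hle s0 p.1 (by rw [← h1]; exact hp)
        have h3 : c ≤ p.1 := hpc
        linarith
      filter_upwards [mem_nhdsWithin_of_mem_nhds (hP.isOpen_compl.mem_nhds hs0P),
        self_mem_nhdsWithin] with s h1 h2
      by_contra hcon
      push Not at hcon
      exact h1 ⟨(F s, a + s), ⟨hmem s h2, hcon⟩, by simp⟩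
  have hclamp : ∀ s : ℝ, max 0 (min s w) ∈ Icc 0 w := fun s =>
    ⟨le_max_left _ _, max_le hw.le (min_le_right _ _)⟩
  have hcl : ∀ s ∈ Icc 0 w, max 0 (min s w) = s := by
    intro s hs
    rw [min_eq_left hs.2, max_eq_right hs.1]
  refine ⟨fun s => F (max 0 (min s w)), ?_, ?_, ?_, ?_, ?_, ?_⟩
  · exact hcont.comp_continuous (by fun_prop) hclamp
  · refine ⟨convex_Icc _ _, ?_⟩
    intro x hx y hy α β hα hβ hαβ
    have hxy : α • x + β • y ∈ Icc 0 w := (convex_Icc 0 w) hx hy hα hβ hαβ
    show α • F (max 0 (min x w)) + β • F (max 0 (min y w)) ≤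
      F (max 0 (min (α • x + β • y) w))
    rw [hcl x hx, hcl y hy, hcl _ hxy]
    exact hconc.2 hx hy hα hβ hαβ
  · intro s hs
    show F (max 0 (min s w)) = F (max 0 (min 0 w))
    rw [min_eq_left hw.le, max_self, max_eq_left ((min_le_left _ _).trans hs)]
  · intro s hs
    show F (max 0 (min s w)) = F (max 0 (min w w))
    rw [min_self, min_eq_right hs]
  · intro s hs
    show (F (max 0 (min s w)), a + s) ∈ K
    rw [hcl s hs]; exact hmem s hs
  · intro p hp
    have h1 : p.2 ∈ Icc a (a + w) := by rw [← hK]; exact ⟨p, hp, rfl⟩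
    show p.1 ≤ F (max 0 (min (p.2 - a) w))
    rw [hcl _ ⟨by linarith [h1.1], by linarith [h1.2]⟩]
    apply hle
    rw [show a + (p.2 - a) = p.2 by ring]
    exact hp

end Pool.Agent.WidthCov
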